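import Pool.Agent.H88.AF.Av

/-!
helper12 (project MP_28250c_AF): rules for averages `av` over finite product spaces `I → κ`, averages over one coordinate,
the Efron-Stein inequality.
-/

set_option autoImplicit false
set_option linter.unusedSectionVars false

namespace ACpFrege

open Finset

/-! ## Rules for `av` -/

section
variable {Ω : Type} [Fintype Ω]

theorem av_mul' (c : ℝ) (f : Ω → ℝ) : av (fun x => f x * c) = av f * c := by
  unfold av
  rw [← sum_mul, mul_div_right_comm]

theorem av_swap {Ω' : Type} [Fintype Ω'] (f : Ω → Ω' → ℝ) :
    av (fun x => av (fun y => f x y)) = av (fun y => av (fun x => f x y)) := by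
  unfold av
  rw [← sum_div, ← sum_div, sum_comm, div_right_comm]

theorem av_equiv {Ω' : Type} [Fintype Ω'] (E : Ω ≃ Ω') (f : Ω' → ℝ) : av (fun x => f (E x)) = av f := by
  unfold av
  rw [Equiv.sum_comp E f, Fintype.card_congr E]

theorem av_abs_le (f : Ω → ℝ) : |av f| ≤ av (fun x => |f x|) := by
  unfold av
  rw [abs_div, Nat.abs_cast]
  exact div_le_div_of_nonneg_right (abs_sum_le_sum_abs _ _) (Nat.cast_nonneg _)

/-- Jensen / Cauchy-Schwarz -/
theorem av_sq_le (f : Ω → ℝ) : (av f) ^ 2 ≤ av (fun x => f x ^ 2) := by
  rcases isEmpty_or_nonempty Ω with h | h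
  · simp [av]
  have h0 := av_nonneg (f := fun x => (f x - av f) ^ 2) fun x => sq_nonneg _
  have e : (fun x => (f x - av f) ^ 2) = fun x => (f x ^ 2 + (-(2 * av f)) * f x) + (av f) ^ 2 := by
    funext x
    ring
  rw [e, av_add, av_add, av_mul, av_const] at h0
  linarith

end

theorem av_prod {Ω Ω' : Type} [Fintype Ω] [Fintype Ω'] (f : Ω × Ω' → ℝ) :
    av f = av (fun x => av (fun y => f (x, y))) := by
  unfold av
  rw [← sum_div, Fintype.sum_prod_type, div_div, Fintype.card_prod, Nat.cast_mul, mul_comm (Fintype.card Ω : ℝ)]

/-! ## Averages over one coordinate -/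

section
variable {I κ : Type} [Fintype I] [DecidableEq I] [Fintype κ] [Nonempty κ]

/-- Average over the coordinate `i`. -/
noncomputable def cav (i : I) (f : (I → κ) → ℝ) (o : I → κ) : ℝ := av fun k => f (Function.update o i k)

/-- Resampling one coordinate does not change the law. -/
theorem av_cav (i : I) (f : (I → κ) → ℝ) : av (cav i f) = av f := by
  classical
  have hK : (0 : ℝ) < Fintype.card κ := by exact_mod_cast Fintype.card_pos
  have h1 : ∀ k : κ, ∑ o : I → κ, f (Function.update o i k) =
      ∑ o : I → κ, if o i = k then (Fintype.card κ : ℝ) * f o else 0 := by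
    intro k
    have h2 : ∀ o : I → κ, f (Function.update o i k) =
        ∑ o' : I → κ, if o' = Function.update o i k then f o' else 0 := by
      intro o
      rw [sum_ite_eq' univ (Function.update o i k) f, if_pos (mem_univ _)]
    simp_rw [h2]
    rw [sum_comm]
    refine sum_congr rfl fun o' _ => ?_
    by_cases ho : o' i = k
    · rw [if_pos ho]
      have h3 : ∀ o : I → κ, (if o' = Function.update o i k then f o' else 0) =
          if o ∈ (univ.image fun l => Function.update o' i l) then f o' else 0 := by
        intro o
        refine if_congr ?_ rfl rfl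
        rw [mem_image]
        constructor
        · intro h
          refine ⟨o i, mem_univ _, ?_⟩
          rw [h, Function.update_idem, Function.update_eq_self]
        · rintro ⟨l, _, rfl⟩
          rw [Function.update_idem, ← ho, Function.update_eq_self]
      rw [sum_congr rfl fun o _ => h3 o, ← sum_filter, sum_const, nsmul_eq_mul]
      congr 2
      have h4 : (univ.filter fun o : I → κ => o ∈ univ.image fun l => Function.update o' i l) =
          univ.image fun l => Function.update o' i l := by
        ext o
        simp
      rw [h4, card_image_of_injective, card_univ]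
      intro a b hab
      have := congrFun hab i
      simpa using this
    · rw [if_neg ho]
      refine sum_eq_zero fun o _ => if_neg fun h => ho ?_
      rw [h, Function.update_self]
  unfold cav av
  congr 1
  rw [← sum_div, sum_comm, sum_congr rfl fun k _ => h1 k, sum_comm, div_eq_iff hK.ne', sum_mul]
  refine sum_congr rfl fun o _ => ?_
  rw [sum_ite_eq univ (o i) (fun _ => (Fintype.card κ : ℝ) * f o), if_pos (mem_univ _), mul_comm]

/-- The same with the order of the averages exchanged. -/
theorem av_res (i : I) (f : (I → κ) → ℝ) : av (fun o : I → κ => av fun k : κ => f (Function.update o i k)) = av f :=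
  av_cav i f

/-- `f` does not depend on the coordinate `i`. -/
def Ind (i : I) (f : (I → κ) → ℝ) : Prop := ∀ o k, f (Function.update o i k) = f o

theorem cav_ind {i : I} {f : (I → κ) → ℝ} (h : Ind i f) (o : I → κ) : cav i f o = f o := by
  unfold cav
  simp only [h o]
  exact av_const _

theorem ind_cav (i : I) (f : (I → κ) → ℝ) : Ind i (cav i f) := by
  intro o k
  unfold cav
  simp only [Function.update_idem]

theorem ind_cav' {i : I} {f : (I → κ) → ℝ} (h : Ind i f) (j : I) : Ind i (cav j f) := by
  by_cases hij : i = j
  · subst hij
    exact ind_cav i f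
  · intro o k
    unfold cav
    refine congrArg av (funext fun l => ?_)
    rw [Function.update_comm hij]
    exact h _ _

/-- A function that does not depend on the coordinate can be pulled out. -/
theorem av_mul_ind {i : I} {f : (I → κ) → ℝ} (h : Ind i f) (g : (I → κ) → ℝ) :
    av (fun o => f o * g o) = av (fun o => f o * cav i g o) := by
  rw [← av_cav i]
  refine congrArg av (funext fun o => ?_)
  unfold cav
  rw [← av_mul]
  refine congrArg av (funext fun k => ?_)
  exact congrArg (· * _) (h o k)

/-! ## The Efron-Stein inequality -/

/-- averages over a list of coordinates -/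
noncomputable def cavl (f : (I → κ) → ℝ) : List I → (I → κ) → ℝ
  | [] => f
  | i :: l => cav i (cavl f l)

theorem av_cavl (f : (I → κ) → ℝ) (l : List I) : av (cavl f l) = av f := by
  induction l with
  | nil => rfl
  | cons i l ih => exact (av_cav i _).trans ih

theorem cavl_ind (f : (I → κ) → ℝ) (l : List I) (i : I) (hi : i ∈ l) : Ind i (cavl f l) := by
  induction l with
  | nil => exact absurd hi List.not_mem_nil
  | cons j l ih =>
    rcases List.mem_cons.1 hi with h | h
    · subst h
      exact ind_cav i _
    · exact ind_cav' (ih h) j

theorem const_of_ind (f : (I → κ) → ℝ) (h : ∀ i, Ind i f) (o o' : I → κ) : f o = f o' := by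
  have hS : ∀ S : Finset I, f (fun i => if i ∈ S then o' i else o i) = f o := by
    intro S
    induction S using Finset.induction_on with
    | empty => simp
    | insert a S _ ih =>
      rw [← ih]
      have e : (fun i => if i ∈ insert a S then o' i else o i) =
          Function.update (fun i => if i ∈ S then o' i else o i) a (o' a) := by
        funext i
        by_cases hi : i = a
        · subst hi
          simp
        · rw [Function.update_of_ne hi]
          simp [hi]
      rw [e]
      exact h a _ _
  rw [← hS univ]
  simp

theorem av_eq_of_ind (f : (I → κ) → ℝ) (h : ∀ i, Ind i f) (o : I → κ) : f o = av f := by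
  have : f = fun _ => f o := funext fun o' => const_of_ind f h o' o
  conv_rhs => rw [this]
  rw [av_const]

/-- one step: variances -/
theorem es_step (i : I) (f g : (I → κ) → ℝ) :
    av (fun o => (f o - cav i g o) ^ 2) ≤ av (fun o => (f o - cav i f o) ^ 2) + av (fun o => (f o - g o) ^ 2) := by
  have hlin : ∀ o, cav i (fun o => f o - g o) o = cav i f o - cav i g o := by
    intro o
    unfold cav
    exact av_sub _ _
  have h1 : av (fun o => (cav i f o - cav i g o) * (f o - cav i f o)) = 0 := by
    have hI : Ind i (fun o => cav i f o - cav i g o) := by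
      intro o k
      simp only [ind_cav i f o k, ind_cav i g o k]
    rw [av_mul_ind hI]
    have : ∀ o, cav i (fun o => f o - cav i f o) o = 0 := by
      intro o
      have h2 : cav i (fun o => f o - cav i f o) o = cav i f o - cav i (cav i f) o := by
        unfold cav
        exact av_sub _ _
      rw [h2, cav_ind (ind_cav i f), sub_self]
    simp only [this, mul_zero]
    exact av_const _
  have h2 : av (fun o => (cav i f o - cav i g o) ^ 2) ≤ av (fun o => (f o - g o) ^ 2) := by
    rw [← av_cav i (fun o => (f o - g o) ^ 2)]
    refine av_mono fun o => ?_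
    rw [← hlin]
    exact av_sq_le _
  have e : (fun o => (f o - cav i g o) ^ 2) = fun o => ((f o - cav i f o) ^ 2 + (cav i f o - cav i g o) ^ 2) +
      2 * ((cav i f o - cav i g o) * (f o - cav i f o)) := by
    funext o
    ring
  rw [e, av_add, av_add, av_mul, h1]
  linarith

theorem es_list (f : (I → κ) → ℝ) (l : List I) :
    av (fun o => (f o - cavl f l o) ^ 2) ≤ (l.map fun i => av (fun o => (f o - cav i f o) ^ 2)).sum := by
  induction l with
  | nil => simp [cavl, av]
  | cons i l ih =>
    rw [List.map_cons, List.sum_cons]
    refine (es_step i f (cavl f l)).trans ?_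
    linarith

/-- the variance of finitely many numbers -/
theorem var_pos (a : κ → ℝ) : av (fun k => (a k - av a) ^ 2) = av fun k => av fun l => (max 0 (a k - a l)) ^ 2 := by
  have h1 : av (fun k => av fun l => (a k - a l) ^ 2) = 2 * av (fun k => (a k - av a) ^ 2) := by
    have e1 : (fun k => av fun l => (a k - a l) ^ 2) =
        fun k => (a k - av a) ^ 2 + av (fun k => (a k - av a) ^ 2) := by
      funext k
      have e2 : (fun l => (a k - a l) ^ 2) = fun l => ((a k - av a) ^ 2 + (a l - av a) ^ 2) +
          (-(2 * (a k - av a))) * (a l - av a) := by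
        funext l
        ring
      rw [e2, av_add, av_add, av_const, av_mul, av_sub, av_const, sub_self, mul_zero, add_zero]
    rw [e1, av_add, av_const]
    ring
  have h2 : av (fun k => av fun l => (a k - a l) ^ 2) = 2 * av fun k => av fun l => (max 0 (a k - a l)) ^ 2 := by
    have e1 : (fun k => av fun l => (a k - a l) ^ 2) = fun k => (av fun l => (max 0 (a k - a l)) ^ 2) +
        av fun l => (max 0 (a l - a k)) ^ 2 := by
      funext k
      rw [← av_add]
      refine congrArg av (funext fun l => ?_)
      rcases le_total (a k) (a l) with h | h
      · rw [max_eq_left (by linarith), max_eq_right (by linarith)]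
        ring
      · rw [max_eq_right (by linarith), max_eq_left (by linarith)]
        ring
    rw [e1, av_add, av_swap (fun k l => (max 0 (a l - a k)) ^ 2)]
    ring
  linarith

theorem av_cav_sub (i : I) (f : (I → κ) → ℝ) :
    av (fun o => (f o - cav i f o) ^ 2) = av fun o => av fun k => (max 0 (f o - f (Function.update o i k))) ^ 2 := by
  rw [← av_cav i (fun o => (f o - cav i f o) ^ 2),
    ← av_cav i (fun o => av fun k => (max 0 (f o - f (Function.update o i k))) ^ 2)]
  refine congrArg av (funext fun o => ?_)
  have h1 : cav i (fun o => (f o - cav i f o) ^ 2) o =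
      av (fun k => (f (Function.update o i k) - av fun l => f (Function.update o i l)) ^ 2) := by
    unfold cav
    refine congrArg av (funext fun k => ?_)
    simp only [Function.update_idem]
  rw [h1, var_pos (fun k => f (Function.update o i k))]
  unfold cav
  simp only [Function.update_idem]

/-- The Efron-Stein inequality. -/
theorem efron_stein (f : (I → κ) → ℝ) :
    av (fun o => (f o - av f) ^ 2) ≤ ∑ i, av fun o => av fun k => (max 0 (f o - f (Function.update o i k))) ^ 2 := by
  have h := es_list f (univ : Finset I).toList
  have hc : ∀ o, cavl f (univ : Finset I).toList o = av f := by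
    intro o
    rw [av_eq_of_ind _ (fun i => cavl_ind f _ i (by rw [mem_toList]; exact mem_univ i)) o, av_cavl]
  simp only [hc] at h
  refine h.trans (le_of_eq ?_)
  rw [Finset.sum_map_toList]
  exact sum_congr rfl fun i _ => av_cav_sub i f

end

/-! ## The sample space -/

/-- The sample space as a space of functions of one variable. -/
def omE (b M q : ℕ) : Om b M q ≃ ((Fin b × Fin M × Fin M) → ZMod (2 * q)) where
  toFun o := fun i => o i.1 i.2.1 i.2.2
  invFun o := fun i u v => o (i, u, v)
  left_inv _ := rfl
  right_inv _ := rfl

end ACpFrege
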