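import Pool.Agent.H12.AF.Res3

/-!
helper12 (project MP_28250c_AF): resampling on the sample space, Efron-Stein for the top eigenvalue (output C2), `kap`.
-/

set_option autoImplicit false
set_option linter.unusedSectionVars false

namespace ACpFrege

open Finset

section
variable {b M q : ℕ} [NeZero q]

/-- resampling of one coordinate -/
theorem av_resample (i : Fin b) (u v : Fin M) (f : Om b M q → ℝ) :
    av f = av (fun o => av (fun s => f (shf i u v s o))) := by
  rw [av_swap]
  simp only [av_shf]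
  exact (av_const _).symm

theorem omE_shf (i : Fin b) (u v : Fin M) (s : ZMod (2 * q)) (o : Om b M q) :
    Function.update (omE b M q o) (i, u, v) (o i u v + s) = omE b M q (shf i u v s o) := by
  funext j
  unfold omE
  simp only [Equiv.coe_fn_mk]
  by_cases h : j = (i, u, v)
  · subst h
    rw [Function.update_self]
    exact (shf_self i u v s o).symm
  · rw [Function.update_of_ne h]
    refine (shf_ne i u v s o _ _ _ ?_).symm
    rintro ⟨h1, h2, h3⟩
    exact h (Prod.ext h1 (Prod.ext h2 h3))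

/-- The Efron-Stein inequality on the sample space. -/
theorem efron_stein_om (f : Om b M q → ℝ) : av (fun o => (f o - av f) ^ 2) ≤
    ∑ i, ∑ u, ∑ v, av fun o => av fun s => (max 0 (f o - f (shf i u v s o))) ^ 2 := by
  have h := efron_stein (fun w : (Fin b × Fin M × Fin M) → ZMod (2 * q) => f ((omE b M q).symm w))
  have e0 : av (fun w : (Fin b × Fin M × Fin M) → ZMod (2 * q) => f ((omE b M q).symm w)) = av f :=
    av_equiv (omE b M q).symm f
  rw [e0] at h
  have e1 : av (fun w : (Fin b × Fin M × Fin M) → ZMod (2 * q) => (f ((omE b M q).symm w) - av f) ^ 2) =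
      av (fun o => (f o - av f) ^ 2) := av_equiv (omE b M q).symm (fun o => (f o - av f) ^ 2)
  rw [e1] at h
  refine h.trans (le_of_eq ?_)
  rw [Fintype.sum_prod_type]
  refine sum_congr rfl fun i _ => ?_
  rw [Fintype.sum_prod_type]
  refine sum_congr rfl fun u _ => sum_congr rfl fun v _ => ?_
  rw [← av_equiv (omE b M q)]
  refine congrArg av (funext fun o => ?_)
  rw [Equiv.symm_apply_apply, ← av_equiv (Equiv.addLeft (o i u v))]
  refine congrArg av (funext fun s => ?_)
  rw [Equiv.coe_addLeft, omE_shf, Equiv.symm_apply_apply]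

theorem lam_shf (hM : 1 ≤ M) (i : Fin b) (u v : Fin M) (s : ZMod (2 * q)) (o : Om b M q) :
    lam (HH o) 0 + (ip (xi (HH o) 0) ((PP i u v s o).mulVec (xi (HH o) 0))).re ≤ lam (HH (shf i u v s o)) 0 := by
  have hc : 0 < Fintype.card (Fin M) := by
    rw [Fintype.card_fin]
    omega
  have h := rayleigh (hh_herm (shf i u v s o)) (xi (HH o) 0)
  rw [xi_nsq (hh_herm o) hc, mul_one] at h
  have e : HH (shf i u v s o) = HH o + PP i u v s o := by
    unfold PP
    abel
  rw [e, Matrix.add_mulVec, ip_add_right, Complex.add_re, xi_eig (hh_herm o) hc, ip_smul_right, ip_self,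
    xi_nsq (hh_herm o) hc] at h
  rw [e]
  simpa using h

theorem lam_diff (hM : 1 ≤ M) (i : Fin b) (u v : Fin M) (s : ZMod (2 * q)) (o : Om b M q) :
    (max 0 (lam (HH o) 0 - lam (HH (shf i u v s o)) 0)) ^ 2 ≤
      ‖ip (xi (HH o) 0) ((PP i u v s o).mulVec (xi (HH o) 0))‖ ^ 2 := by
  have h1 := lam_shf hM i u v s o
  have h2 := Complex.abs_re_le_norm (ip (xi (HH o) 0) ((PP i u v s o).mulVec (xi (HH o) 0)))
  have h3 := (abs_le.1 h2).1
  refine pow_le_pow_left₀ (le_max_left _ _) ?_ 2
  exact max_le (norm_nonneg _) (by linarith)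

/-- `Var lam_1 ≤ 3` -/
theorem outC2 : OutC2 := by
  intro M q b hM hq hb _
  refine (efron_stein_om (fun o : Om b M q => lam (HH o) 0)).trans ?_
  have h1 : ∑ i : Fin b, ∑ u : Fin M, ∑ v : Fin M, av (fun o : Om b M q => av fun s =>
      (max 0 (lam (HH o) 0 - lam (HH (shf i u v s o)) 0)) ^ 2) ≤
      av (fun o : Om b M q => ∑ i : Fin b, ∑ u : Fin M, ∑ v : Fin M,
        av fun s => ‖ip (xi (HH o) 0) ((PP i u v s o).mulVec (xi (HH o) 0))‖ ^ 2) := by
    simp only [av_sum]
    refine sum_le_sum fun i _ => sum_le_sum fun u _ => sum_le_sum fun v _ => ?_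
    exact av_mono fun o => av_mono fun s => lam_diff hM i u v s o
  refine h1.trans ?_
  have h2 : ∀ o : Om b M q, ∑ i : Fin b, ∑ u : Fin M, ∑ v : Fin M,
        av (fun s => ‖ip (xi (HH o) 0) ((PP i u v s o).mulVec (xi (HH o) 0))‖ ^ 2) ≤ 3 := by
    intro o
    have hc : 0 < Fintype.card (Fin M) := by
      rw [Fintype.card_fin]
      omega
    refine (PP_second_le hb hq o _ _ 1 (fun u v _ => kap_le hb o u v) zero_le_one).trans (le_of_eq ?_)
    rw [xi_nsq (hh_herm o) hc]
    norm_num
  exact (av_mono h2).trans (le_of_eq (av_const _))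

/-- second moment of `kap` -/
theorem av_kap (hb : 1 ≤ b) (hq : 3 ≤ q) (u v : Fin M) : av (fun o : Om b M q => ‖kap o u v‖ ^ 2) = 1 / b := by
  have hb0 : (b : ℝ) ≠ 0 := by positivity
  have h0 : ∀ i j : Fin b, i ≠ j →
      av (fun o : Om b M q => (om (2 * q) (o i u v) ^ 2 * (starRingEnd ℂ) (om (2 * q) (o j u v) ^ 2)).re) = 0 := by
    intro i j hij
    rw [av_resample i u v]
    have : ∀ o : Om b M q, av (fun s => (om (2 * q) (shf i u v s o i u v) ^ 2 *
        (starRingEnd ℂ) (om (2 * q) (shf i u v s o j u v) ^ 2)).re) = 0 := by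
      intro o
      rw [av_re]
      have h1 : ∀ s, om (2 * q) (shf i u v s o i u v) ^ 2 * (starRingEnd ℂ) (om (2 * q) (shf i u v s o j u v) ^ 2) =
          om (2 * q) (o i u v + s) ^ 2 * (starRingEnd ℂ) (om (2 * q) (o j u v) ^ 2) := by
        intro s
        rw [shf_self, shf_ne i u v s o j u v (fun h => hij h.1.symm)]
      rw [sum_congr rfl fun s _ => h1 s, ← sum_mul, sum_shift (fun s => om (2 * q) s ^ 2), sum_om_sq (by omega), zero_mul,
        Complex.zero_re, zero_div]
    simp only [this]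
    exact av_const _
  have h1 : ∀ i : Fin b, av (fun o : Om b M q => (om (2 * q) (o i u v) ^ 2 *
      (starRingEnd ℂ) (om (2 * q) (o i u v) ^ 2)).re) = 1 := by
    intro i
    have : ∀ o : Om b M q, (om (2 * q) (o i u v) ^ 2 * (starRingEnd ℂ) (om (2 * q) (o i u v) ^ 2)).re = 1 := by
      intro o
      rw [Complex.mul_conj', norm_pow, om_norm]
      norm_num
    simp only [this]
    exact av_const _
  have e : ∀ o : Om b M q, ‖kap o u v‖ ^ 2 = ((b : ℝ) ^ 2)⁻¹ * ∑ i, ∑ j,
      (om (2 * q) (o i u v) ^ 2 * (starRingEnd ℂ) (om (2 * q) (o j u v) ^ 2)).re := by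
    intro o
    unfold kap
    rw [norm_div, div_pow, Complex.norm_natCast, div_eq_inv_mul]
    congr 1
    have h2 : ((‖∑ i, om (2 * q) (o i u v) ^ 2‖ ^ 2 : ℝ) : ℂ) =
        (∑ i, om (2 * q) (o i u v) ^ 2) * (starRingEnd ℂ) (∑ i, om (2 * q) (o i u v) ^ 2) := by
      rw [Complex.mul_conj']
      push_cast
      rfl
    rw [map_sum, sum_mul_sum] at h2
    have h3 := congrArg Complex.re h2
    rw [Complex.ofReal_re, Complex.re_sum] at h3
    rw [h3]
    exact sum_congr rfl fun i _ => Complex.re_sum _ _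
  simp only [e]
  rw [av_mul, av_sum]
  have h3 : ∀ i : Fin b, av (fun o : Om b M q => ∑ j,
      (om (2 * q) (o i u v) ^ 2 * (starRingEnd ℂ) (om (2 * q) (o j u v) ^ 2)).re) = 1 := by
    intro i
    rw [av_sum, sum_eq_single i]
    · exact h1 i
    · intro j _ hj
      exact h0 i j (Ne.symm hj)
    · intro h
      exact absurd (mem_univ i) h
  rw [sum_congr rfl fun i _ => h3 i, sum_const, card_univ, Fintype.card_fin, nsmul_eq_mul, mul_one]
  field_simp

theorem kap_pr (hb : 1 ≤ b) (hq : 3 ≤ q) (s0 : ℝ) (hs : 0 < s0) :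
    pr (fun o : Om b M q => ∃ u v, u < v ∧ s0 < ‖kap o u v‖) ≤ M ^ 2 / (b * s0 ^ 2) := by
  have hb0 : (0 : ℝ) < b := by positivity
  have h1 : ∀ p : Fin M × Fin M, pr (fun o : Om b M q => s0 < ‖kap o p.1 p.2‖) ≤ 1 / (b * s0 ^ 2) := by
    intro p
    have h2 := markov (f := fun o : Om b M q => ‖kap o p.1 p.2‖ ^ 2) (fun o => by positivity) (c := s0 ^ 2) (by positivity)
    rw [av_kap hb hq] at h2
    refine (pr_mono fun o ho => ?_).trans (h2.trans (le_of_eq ?_))
    · exact pow_le_pow_left₀ hs.le ho.le 2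
    · rw [div_div]
  have h3 : pr (fun o : Om b M q => ∃ u v, u < v ∧ s0 < ‖kap o u v‖) ≤
      pr (fun o : Om b M q => ∃ p ∈ (univ : Finset (Fin M × Fin M)), s0 < ‖kap o p.1 p.2‖) := by
    refine pr_mono fun o ho => ?_
    obtain ⟨u, v, _, h⟩ := ho
    exact ⟨(u, v), mem_univ _, h⟩
  refine h3.trans ((pr_exists univ (fun (p : Fin M × Fin M) (o : Om b M q) => s0 < ‖kap o p.1 p.2‖)).trans ?_)
  refine (sum_le_sum fun p _ => h1 p).trans (le_of_eq ?_)
  rw [sum_const, card_univ, Fintype.card_prod, Fintype.card_fin, nsmul_eq_mul]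
  push_cast
  ring

theorem kapS : KapS := fun _ _ _ _ hb hq => ⟨fun o u v => kap_le hb o u v, fun s0 hs => kap_pr hb hq s0 hs⟩

theorem pnormS : PnormS := fun _ _ _ _ hb i u v s o z => PP_norm hb i u v s o z

theorem pfirstS : PfirstS := fun _ _ _ _ _ o x y => PP_first o x y

theorem psecondS : PsecondS := fun _ _ _ _ hb hq o x y => PP_second hb hq o x y

theorem psecS : PsecS := fun _ _ _ _ hb hq o x y k hk hk0 => ⟨PP_second_ge hb hq o x y k hk hk0, PP_second_le hb hq o x y k hk hk0⟩

end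

end ACpFrege
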