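import Pool.Agent.H12.AF.Avg
import Pool.Agent.H88.AF.OmF
import Pool.Agent.H65.AF.CDefs

/-!
helper12 (project MP_28250c_AF): the probability toolkit for Part C.  Definitions and statements (the statements are proved in
`H12/AF/{Mgf,Res,HW,C2,OutE}.lean` as theorems with the names in the comments).
-/

set_option autoImplicit false

namespace ACpFrege

open Finset

variable {b M q : ℕ}

/-- `f` does not change if the coordinates in the row or column `u` change. -/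
def RInv {α : Type} (u : Fin M) (f : Om b M q → α) : Prop :=
  ∀ (i : Fin b) (u' v' : Fin M) (s : ZMod (2 * q)) (o : Om b M q), (u' = u ∨ v' = u) → f (shf i u' v' s o) = f o

/-- The column `u` without its diagonal entry. -/
def col (H : Matrix (Fin M) (Fin M) ℂ) (u : Fin M) : Fin M → ℂ := fun v => if v = u then 0 else H v u

/-- The change of the random matrix when a coordinate is shifted. -/
noncomputable def PP (i : Fin b) (u v : Fin M) (s : ZMod (2 * q)) (o : Om b M q) : Matrix (Fin M) (Fin M) ℂ :=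
  HH (shf i u v s o) - HH o

/-- The normalised sum of the squares of the entries of the layers. -/
noncomputable def kap (o : Om b M q) (u v : Fin M) : ℂ := (∑ i, om (2 * q) (o i u v) ^ 2) / b

/-- (`hh_herm`) -/
def HermS : Prop := ∀ (b M q : ℕ) [NeZero q] (o : Om b M q), (HH o).IsHermitian

/-- (`hh_msk`) masks: `HH (o + 2 c) = msk (anti c) (HH o)`, so the law of the random matrix is invariant under masks -/
def MskS : Prop := ∀ (b M q : ℕ) [NeZero q] (c : Fin M → Fin M → ZMod q), ∃ E : Om b M q ≃ Om b M q,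
  ∀ o, HH (E o) = msk (anti c) (HH o)

/-- (`mgf_row`) exponential moments of a column, conditionally on the rest -/
def RowS : Prop := ∀ (b M q : ℕ) [NeZero q], 1 ≤ b → 3 ≤ q → ∀ (u : Fin M) (g : Om b M q → ℝ) (c : Om b M q → Fin M → ℂ),
  (∀ o, 0 ≤ g o) → RInv u g → RInv u c →
  av (fun o => g o * Real.exp (ip (c o) (col (HH o) u)).re) ≤ av (fun o => g o * Real.exp (nsq (c o) / 4))

/-- (`hw_row`) Hanson-Wright for a column, conditionally on the rest -/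
def HWS : Prop := ∀ (b M q : ℕ) [NeZero q], 1 ≤ b → 3 ≤ q → ∀ (u : Fin M) (g : Om b M q → ℝ) (J : Finset ℕ)
  (v : Om b M q → ℕ → Fin M → ℂ) (a : Om b M q → ℕ → ℝ), (∀ o, 0 ≤ g o) → RInv u g → RInv u v → RInv u a →
  (∀ o, ∀ i ∈ J, ∀ j ∈ J, ip (v o i) (v o j) = if i = j then 1 else 0) →
  (∀ o, ∀ j ∈ J, 0 ≤ a o j ∧ a o j ≤ 1 / 10) →
  av (fun o => g o * Real.exp (∑ j ∈ J, a o j * ‖ip (v o j) (col (HH o) u)‖ ^ 2)) ≤
    av (fun o => g o * Real.exp (1.06 * ∑ j ∈ J, a o j))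

/-- (`ent_tail`) tails of the entries -/
def TailS : Prop := ∀ (b M q : ℕ) [NeZero q], 1 ≤ b → 3 ≤ q → ∀ (u v : Fin M) (t : ℝ), 0 ≤ t →
  pr (fun o : Om b M q => t < ‖HH o u v‖) ≤ 2 * Real.exp (-(t ^ 2 / 10))

/-- (`PP_norm`) -/
def PnormS : Prop := ∀ (b M q : ℕ) [NeZero q], 1 ≤ b → ∀ (i : Fin b) (u v : Fin M) (s : ZMod (2 * q)) (o : Om b M q)
  (z : Fin M → ℂ), nsq ((PP i u v s o).mulVec z) ≤ (2 / Real.sqrt b) ^ 2 * nsq z

/-- (`PP_first`) -/
def PfirstS : Prop := ∀ (b M q : ℕ) [NeZero q], 1 ≤ b → ∀ (o : Om b M q) (x y : Fin M → ℂ),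
  ∑ i, ∑ u, ∑ v, av (fun s => (ip y ((PP i u v s o).mulVec x)).re) = -(ip y ((HH o).mulVec x)).re

/-- (`PP_second`) -/
def PsecondS : Prop := ∀ (b M q : ℕ) [NeZero q], 1 ≤ b → 3 ≤ q → ∀ (o : Om b M q) (x y : Fin M → ℂ),
  ∑ i, ∑ u, ∑ v, av (fun s => ‖ip y ((PP i u v s o).mulVec x)‖ ^ 2) = 2 * (nsq x * nsq y) +
    2 * (∑ u, ∑ v, if u < v then (starRingEnd ℂ) (y u) * x v * (y v * (starRingEnd ℂ) (x u)) * kap o u v else 0).re

/-- (`PP_second_ge`, `PP_second_le`) -/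
def PsecS : Prop := ∀ (b M q : ℕ) [NeZero q], 1 ≤ b → 3 ≤ q → ∀ (o : Om b M q) (x y : Fin M → ℂ) (k : ℝ),
  (∀ u v, u < v → ‖kap o u v‖ ≤ k) → 0 ≤ k → (2 - k) * (nsq x * nsq y) ≤
    ∑ i, ∑ u, ∑ v, av (fun s => ‖ip y ((PP i u v s o).mulVec x)‖ ^ 2) ∧
  ∑ i, ∑ u, ∑ v, av (fun s => ‖ip y ((PP i u v s o).mulVec x)‖ ^ 2) ≤ (2 + k) * (nsq x * nsq y)

/-- (`kap_le`, `kap_pr`) -/
def KapS : Prop := ∀ (b M q : ℕ) [NeZero q], 1 ≤ b → 3 ≤ q → (∀ (o : Om b M q) u v, ‖kap o u v‖ ≤ 1) ∧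
  ∀ s0 : ℝ, 0 < s0 → pr (fun o : Om b M q => ∃ u v, u < v ∧ s0 < ‖kap o u v‖) ≤ M ^ 2 / (b * s0 ^ 2)

end ACpFrege
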