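import Pool.Agent.H12.AF.Prob

/-!
helper12 (project MP_28250c_AF): the random matrix: Hermitian, masks, the change when a coordinate is shifted, first and second
moments of the change.
-/

set_option autoImplicit false

namespace ACpFrege

open Finset

section
variable {b M q : ℕ}

/-! ## Hermitian, masks -/

theorem lay_hermitian (o : Fin M → Fin M → ZMod (2 * q)) : (lay o).IsHermitian := by
  ext u v
  rw [Matrix.conjTranspose_apply]
  unfold lay
  rcases lt_trichotomy u v with h | h | h
  · rw [if_neg (not_lt.2 h.le), if_pos h, if_pos h, Complex.star_def, Complex.conj_conj]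
  · subst h
    simp
  · rw [if_pos h, if_neg (not_lt.2 h.le), if_pos h, Complex.star_def]

theorem hh_herm (o : Om b M q) : (HH o).IsHermitian := by
  ext u v
  rw [Matrix.conjTranspose_apply]
  unfold HH
  rw [Complex.star_def, map_mul, map_sum]
  congr 1
  · rw [map_inv₀, Complex.conj_ofReal]
  · refine sum_congr rfl fun i _ => ?_
    have := congrFun (congrFun (lay_hermitian (o i)) u) v
    rw [Matrix.conjTranspose_apply, Complex.star_def] at this
    exact this

/-- The shift of all coordinates above the diagonal by `2 c`. -/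
def mskE (c : Fin M → Fin M → ZMod q) : Om b M q ≃ Om b M q where
  toFun o := fun i u v => if u < v then o i u v + 2 * ((c u v).val : ZMod (2 * q)) else o i u v
  invFun o := fun i u v => if u < v then o i u v - 2 * ((c u v).val : ZMod (2 * q)) else o i u v
  left_inv o := by
    funext i u v
    by_cases h : u < v
    · simp only [if_pos h]
      ring
    · simp only [if_neg h]
  right_inv o := by
    funext i u v
    by_cases h : u < v
    · simp only [if_pos h]
      ring
    · simp only [if_neg h]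

theorem om_two_mul [NeZero q] (a : ZMod q) : om (2 * q) (2 * ((a.val : ZMod (2 * q)))) = om q a := by
  have e : (2 * ((a.val : ZMod (2 * q)))) = ((2 * a.val : ℕ) : ZMod (2 * q)) := by push_cast; rfl
  rw [e, om_natCast, om_eq_pow, pow_mul, ← Complex.exp_nat_mul]
  congr 2
  have hq : (q : ℂ) ≠ 0 := by exact_mod_cast NeZero.ne q
  push_cast
  field_simp

theorem hh_msk [NeZero q] (c : Fin M → Fin M → ZMod q) (o : Om b M q) : HH (mskE c o) = msk (anti c) (HH o) := by
  ext u v
  unfold HH msk
  rw [mul_assoc, sum_mul]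
  congr 1
  refine sum_congr rfl fun i _ => ?_
  unfold lay anti mskE
  simp only [Equiv.coe_fn_mk]
  rcases lt_trichotomy u v with h | h | h
  · rw [if_pos h, if_pos h, if_pos h, if_pos h, om_add, om_two_mul]
  · subst h
    simp only [lt_irrefl, if_false]
    rw [om_zero, mul_one]
  · rw [if_neg (not_lt.2 h.le), if_pos h, if_neg (not_lt.2 h.le), if_pos h, if_neg (not_lt.2 h.le), if_pos h, if_pos h,
      om_add, om_two_mul, om_neg, map_mul]

theorem hermS : HermS := fun _ _ _ _ o => hh_herm o

theorem mskS : MskS := fun _ _ _ _ c => ⟨mskE c, hh_msk c⟩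

/-! ## The change of the matrix -/

variable [NeZero q]

/-- the change of the entry of the layer -/
noncomputable def ddl (o : Om b M q) (i : Fin b) (u v : Fin M) (s : ZMod (2 * q)) : ℂ :=
  om (2 * q) (o i u v + s) - om (2 * q) (o i u v)

/-- the change of the diagonal entry of the layer -/
noncomputable def de (o : Om b M q) (i : Fin b) (u : Fin M) (s : ZMod (2 * q)) : ℂ :=
  (-1) ^ (o i u u + s).val - (-1) ^ (o i u u).val

omit [NeZero q] in
theorem PP_eq (i : Fin b) (u v : Fin M) (s : ZMod (2 * q)) (o : Om b M q) (x y : Fin M) :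
    PP i u v s o x y = ((Real.sqrt b)⁻¹ : ℂ) * (lay (shf i u v s o i) x y - lay (o i) x y) := by
  change HH (shf i u v s o) x y - HH o x y = _
  unfold HH
  rw [← mul_sub, ← sum_sub_distrib]
  congr 1
  rw [sum_eq_single i]
  · intro j _ hj
    have : shf i u v s o j = o j := by
      funext x y
      exact shf_ne i u v s o j x y (fun h => hj h.1)
    rw [this, sub_self]
  · intro h
    exact absurd (mem_univ i) h

theorem PP_lt (i : Fin b) (u v : Fin M) (huv : u < v) (s : ZMod (2 * q)) (o : Om b M q) (x y : Fin M) :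
    PP i u v s o x y = ((Real.sqrt b)⁻¹ : ℂ) * ((if x = u ∧ y = v then ddl o i u v s else 0) +
      (if x = v ∧ y = u then (starRingEnd ℂ) (ddl o i u v s) else 0)) := by
  rw [PP_eq]
  congr 1
  unfold lay ddl
  by_cases h1 : x = u ∧ y = v
  · obtain ⟨rfl, rfl⟩ := h1
    have h2 : ¬ (x = y ∧ y = x) := fun h => huv.ne h.1
    rw [if_pos huv, if_pos huv, shf_self, if_pos ⟨rfl, rfl⟩, if_neg h2, add_zero]
  · rw [if_neg h1, zero_add]
    by_cases h2 : x = v ∧ y = u
    · obtain ⟨rfl, rfl⟩ := h2
      rw [if_neg (not_lt.2 huv.le), if_pos huv, if_neg (not_lt.2 huv.le), if_pos huv, shf_self, if_pos ⟨rfl, rfl⟩, map_sub]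
    · rw [if_neg h2]
      rcases lt_trichotomy x y with h | h | h
      · rw [if_pos h, if_pos h, shf_ne i u v s o i x y (fun h' => h1 ⟨h'.2.1, h'.2.2⟩), sub_self]
      · subst h
        rw [if_neg (lt_irrefl x), if_neg (lt_irrefl x), if_neg (lt_irrefl x), if_neg (lt_irrefl x),
          shf_ne i u v s o i x x (fun h' => huv.ne (h'.2.1.symm.trans h'.2.2)), sub_self]
      · rw [if_neg (not_lt.2 h.le), if_pos h, if_neg (not_lt.2 h.le), if_pos h,
          shf_ne i u v s o i y x (fun h' => h2 ⟨h'.2.2, h'.2.1⟩), sub_self]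

theorem PP_diag (i : Fin b) (u : Fin M) (s : ZMod (2 * q)) (o : Om b M q) (x y : Fin M) :
    PP i u u s o x y = ((Real.sqrt b)⁻¹ : ℂ) * (if x = u ∧ y = u then de o i u s else 0) := by
  rw [PP_eq]
  congr 1
  unfold lay de
  by_cases h1 : x = u ∧ y = u
  · obtain ⟨rfl, rfl⟩ := h1
    rw [if_neg (lt_irrefl _), if_neg (lt_irrefl _), if_neg (lt_irrefl _), if_neg (lt_irrefl _), shf_self,
      if_pos ⟨rfl, rfl⟩]
  · rw [if_neg h1]
    rcases lt_trichotomy x y with h | h | h
    · rw [if_pos h, if_pos h, shf_ne i u u s o i x y (fun h' => h1 ⟨h'.2.1, h'.2.2⟩), sub_self]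
    · subst h
      rw [if_neg (lt_irrefl x), if_neg (lt_irrefl x), if_neg (lt_irrefl x), if_neg (lt_irrefl x),
        shf_ne i u u s o i x x (fun h' => h1 ⟨h'.2.1, h'.2.2⟩), sub_self]
    · rw [if_neg (not_lt.2 h.le), if_pos h, if_neg (not_lt.2 h.le), if_pos h,
        shf_ne i u u s o i y x (fun h' => h1 ⟨h'.2.2, h'.2.1⟩), sub_self]

theorem PP_gt (i : Fin b) (u v : Fin M) (huv : v < u) (s : ZMod (2 * q)) (o : Om b M q) : PP i u v s o = 0 := by
  ext x y
  rw [PP_eq, Matrix.zero_apply]
  unfold lay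
  rcases lt_trichotomy x y with h | h | h
  · rw [if_pos h, if_pos h, shf_ne i u v s o i x y (fun h' => by
      rw [h'.2.1, h'.2.2] at h
      exact absurd h (not_lt.2 huv.le)), sub_self, mul_zero]
  · subst h
    rw [if_neg (lt_irrefl x), if_neg (lt_irrefl x), if_neg (lt_irrefl x), if_neg (lt_irrefl x),
      shf_ne i u v s o i x x (fun h' => huv.ne (h'.2.2.symm.trans h'.2.1)), sub_self, mul_zero]
  · rw [if_neg (not_lt.2 h.le), if_pos h, if_neg (not_lt.2 h.le), if_pos h, shf_ne i u v s o i y x (fun h' => by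
      rw [h'.2.1, h'.2.2] at h
      exact absurd h (not_lt.2 huv.le)), sub_self, mul_zero]

/-! ## Forms -/

theorem ip_PP_lt (i : Fin b) (u v : Fin M) (huv : u < v) (s : ZMod (2 * q)) (o : Om b M q) (x y : Fin M → ℂ) :
    ip y ((PP i u v s o).mulVec x) = ((Real.sqrt b)⁻¹ : ℂ) * ((starRingEnd ℂ) (y u) * x v * ddl o i u v s +
      (starRingEnd ℂ) (y v) * x u * (starRingEnd ℂ) (ddl o i u v s)) := by
  unfold ip Matrix.mulVec dotProduct
  simp only [PP_lt i u v huv s o]
  have h1 : ∀ w : Fin M, ∑ z, ((Real.sqrt b)⁻¹ : ℂ) * ((if w = u ∧ z = v then ddl o i u v s else 0) +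
      (if w = v ∧ z = u then (starRingEnd ℂ) (ddl o i u v s) else 0)) * x z =
      ((Real.sqrt b)⁻¹ : ℂ) * ((if w = u then ddl o i u v s * x v else 0) +
        (if w = v then (starRingEnd ℂ) (ddl o i u v s) * x u else 0)) := by
    intro w
    have h2 : ∀ z, ((Real.sqrt b)⁻¹ : ℂ) * ((if w = u ∧ z = v then ddl o i u v s else 0) +
      (if w = v ∧ z = u then (starRingEnd ℂ) (ddl o i u v s) else 0)) * x z =
      ((Real.sqrt b)⁻¹ : ℂ) * ((if z = v then (if w = u then ddl o i u v s * x v else 0) else 0) +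
        (if z = u then (if w = v then (starRingEnd ℂ) (ddl o i u v s) * x u else 0) else 0)) := by
      intro z
      rw [mul_assoc, add_mul]
      congr 2
      · by_cases hz : z = v
        · subst hz
          by_cases hw : w = u
          · rw [if_pos ⟨hw, rfl⟩, if_pos rfl, if_pos hw]
          · rw [if_neg (fun h => hw h.1), if_pos rfl, if_neg hw, zero_mul]
        · rw [if_neg (fun h => hz h.2), if_neg hz, zero_mul]
      · by_cases hz : z = u
        · subst hz
          by_cases hw : w = v
          · rw [if_pos ⟨hw, rfl⟩, if_pos rfl, if_pos hw]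
          · rw [if_neg (fun h => hw h.1), if_pos rfl, if_neg hw, zero_mul]
        · rw [if_neg (fun h => hz h.2), if_neg hz, zero_mul]
    rw [sum_congr rfl fun z _ => h2 z, ← mul_sum, sum_add_distrib, sum_ite_eq' univ v, sum_ite_eq' univ u,
      if_pos (mem_univ _), if_pos (mem_univ _)]
  rw [sum_congr rfl fun w _ => by rw [h1 w]]
  have h3 : ∀ w : Fin M, (starRingEnd ℂ) (y w) * (((Real.sqrt b)⁻¹ : ℂ) * ((if w = u then ddl o i u v s * x v else 0) +
        (if w = v then (starRingEnd ℂ) (ddl o i u v s) * x u else 0))) =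
      ((Real.sqrt b)⁻¹ : ℂ) * ((if w = u then (starRingEnd ℂ) (y u) * x v * ddl o i u v s else 0) +
        (if w = v then (starRingEnd ℂ) (y v) * x u * (starRingEnd ℂ) (ddl o i u v s) else 0)) := by
    intro w
    by_cases hw : w = u
    · subst hw
      rw [if_pos rfl, if_pos rfl, if_neg huv.ne, if_neg huv.ne]
      ring
    · rw [if_neg hw, if_neg hw]
      by_cases hw' : w = v
      · subst hw'
        rw [if_pos rfl, if_pos rfl]
        ring
      · rw [if_neg hw', if_neg hw']
        ring
  rw [sum_congr rfl fun w _ => h3 w, ← mul_sum, sum_add_distrib, sum_ite_eq' univ u, sum_ite_eq' univ v,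
    if_pos (mem_univ _), if_pos (mem_univ _)]

theorem ip_PP_diag (i : Fin b) (u : Fin M) (s : ZMod (2 * q)) (o : Om b M q) (x y : Fin M → ℂ) :
    ip y ((PP i u u s o).mulVec x) = ((Real.sqrt b)⁻¹ : ℂ) * ((starRingEnd ℂ) (y u) * x u * de o i u s) := by
  unfold ip Matrix.mulVec dotProduct
  simp only [PP_diag i u s o]
  have h1 : ∀ w : Fin M, ∑ z, ((Real.sqrt b)⁻¹ : ℂ) * (if w = u ∧ z = u then de o i u s else 0) * x z =
      if w = u then ((Real.sqrt b)⁻¹ : ℂ) * (de o i u s * x u) else 0 := by
    intro w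
    by_cases hw : w = u
    · rw [if_pos hw, sum_eq_single u]
      · rw [if_pos ⟨hw, rfl⟩, mul_assoc]
      · intro z _ hz
        rw [if_neg (fun h => hz h.2), mul_zero, zero_mul]
      · intro h
        exact absurd (mem_univ u) h
    · rw [if_neg hw]
      refine sum_eq_zero fun z _ => ?_
      rw [if_neg (fun h => hw h.1), mul_zero, zero_mul]
  rw [sum_congr rfl fun w _ => by rw [h1 w], sum_eq_single u]
  · rw [if_pos rfl]
    ring
  · intro w _ hw
    rw [if_neg hw, mul_zero]
  · intro h
    exact absurd (mem_univ u) h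

/-! ## Averages of the changes -/

theorem two_q_pos : 0 < 2 * q := by
  have := NeZero.pos q
  omega

instance : NeZero (2 * q) := ⟨(two_q_pos (q := q)).ne'⟩

/-- complex averages over `Z/2q` -/
theorem sum_shift (f : ZMod (2 * q) → ℂ) (a : ZMod (2 * q)) : ∑ s, f (a + s) = ∑ s, f s :=
  Equiv.sum_comp (Equiv.addLeft a) f

theorem sum_dd (o : Om b M q) (i : Fin b) (u v : Fin M) :
    ∑ s, ddl o i u v s = -((2 * q : ℕ) : ℂ) * om (2 * q) (o i u v) := by
  unfold ddl
  rw [sum_sub_distrib, sum_shift (fun s => om (2 * q) s), sum_om (by have := two_q_pos (q := q); omega), sum_const, card_univ, ZMod.card,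
    nsmul_eq_mul]
  ring

theorem sum_de (o : Om b M q) (i : Fin b) (u : Fin M) :
    ∑ s, de o i u s = -((2 * q : ℕ) : ℂ) * (-1) ^ (o i u u).val := by
  unfold de
  rw [sum_sub_distrib, sum_shift (fun s => (-1 : ℂ) ^ s.val), sum_sgn, sum_const, card_univ, ZMod.card,
    nsmul_eq_mul]
  ring

end

end ACpFrege
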