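import Pool.Agent.H12.AF.Res

/-!
helper12 (project MP_28250c_AF): first and second moments of the change of the random matrix when a coordinate is resampled.
-/

set_option autoImplicit false
set_option linter.unusedSectionVars false

namespace ACpFrege

open Finset

/-- a double sum over pairs -/
theorem sum_pair {A : Type} [AddCommMonoid A] {M : ℕ} (F : Fin M → Fin M → A) :
    ∑ u, ∑ v, F u v = ∑ u, ∑ v, if u < v then F u v + F v u else if u = v then F u u else 0 := by
  have h1 : ∀ u v : Fin M, F u v = ((if u < v then F u v else 0) + (if v < u then F u v else 0)) +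
      (if u = v then F u u else 0) := by
    intro u v
    rcases lt_trichotomy u v with h | h | h
    · rw [if_pos h, if_neg (not_lt.2 h.le), if_neg h.ne, add_zero, add_zero]
    · subst h
      rw [if_neg (lt_irrefl u), if_pos rfl, add_zero, zero_add]
    · rw [if_neg (not_lt.2 h.le), if_pos h, if_neg h.ne', zero_add, add_zero]
  have h2 : ∀ u v : Fin M, (if u < v then F u v + F v u else if u = v then F u u else 0) =
      ((if u < v then F u v else 0) + (if u < v then F v u else 0)) + (if u = v then F u u else 0) := by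
    intro u v
    rcases lt_trichotomy u v with h | h | h
    · rw [if_pos h, if_pos h, if_pos h, if_neg h.ne, add_zero]
    · subst h
      simp
    · rw [if_neg (not_lt.2 h.le), if_neg (not_lt.2 h.le), if_neg (not_lt.2 h.le), if_neg h.ne', add_zero, add_zero]
  rw [sum_congr rfl fun u _ => sum_congr rfl fun v _ => h1 u v,
    sum_congr rfl fun u _ => sum_congr rfl fun v _ => h2 u v]
  simp only [sum_add_distrib]
  congr 2
  rw [sum_comm]

section
variable {b M q : ℕ} [NeZero q]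

theorem av_re (f : ZMod (2 * q) → ℂ) : av (fun s => (f s).re) = (∑ s, f s).re / (2 * q : ℕ) := by
  unfold av
  rw [ZMod.card, Complex.re_sum]

theorem q2ne : (((2 * q : ℕ) : ℂ)) ≠ 0 := by
  exact_mod_cast (two_q_pos (q := q)).ne'

theorem q2ne' : (((2 * q : ℕ) : ℝ)) ≠ 0 := by
  exact_mod_cast (two_q_pos (q := q)).ne'

/-- the first moment for one coordinate -/
theorem first_one (o : Om b M q) (i : Fin b) (u v : Fin M) (x y : Fin M → ℂ) :
    av (fun s => (ip y ((PP i u v s o).mulVec x)).re) = -(((Real.sqrt b)⁻¹ : ℂ) *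
      (if u < v then (starRingEnd ℂ) (y u) * lay (o i) u v * x v + (starRingEnd ℂ) (y v) * lay (o i) v u * x u
        else if u = v then (starRingEnd ℂ) (y u) * lay (o i) u u * x u else 0)).re := by
  rcases lt_trichotomy u v with h | h | h
  · rw [if_pos h, av_re]
    simp only [ip_PP_lt i u v h]
    rw [← mul_sum, sum_add_distrib, ← mul_sum, ← mul_sum, ← map_sum, sum_dd]
    have e1 : lay (o i) u v = om (2 * q) (o i u v) := by
      unfold lay
      rw [if_pos h]
    have e2 : lay (o i) v u = (starRingEnd ℂ) (om (2 * q) (o i u v)) := by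
      unfold lay
      rw [if_neg (not_lt.2 h.le), if_pos h]
    rw [e1, e2, map_mul, map_neg, Complex.conj_natCast, eq_neg_iff_add_eq_zero, div_add' _ _ _ q2ne', div_eq_zero_iff]
    left
    have e3 : ∀ z : ℂ, z.re * ((2 * q : ℕ) : ℝ) = (z * ((2 * q : ℕ) : ℂ)).re := by
      intro z
      rw [← Complex.ofReal_natCast, Complex.re_mul_ofReal]
    rw [e3, ← Complex.add_re]
    have e4 : ∀ z : ℂ, z = 0 → z.re = 0 := fun z hz => by rw [hz, Complex.zero_re]
    refine e4 _ ?_
    ring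
  · subst h
    rw [if_neg (lt_irrefl u), if_pos rfl, av_re]
    simp only [ip_PP_diag i u]
    rw [← mul_sum, ← mul_sum, sum_de]
    have e1 : lay (o i) u u = (-1) ^ (o i u u).val := by
      unfold lay
      rw [if_neg (lt_irrefl u), if_neg (lt_irrefl u)]
    rw [e1, eq_neg_iff_add_eq_zero, div_add' _ _ _ q2ne', div_eq_zero_iff]
    left
    have e3 : ∀ z : ℂ, z.re * ((2 * q : ℕ) : ℝ) = (z * ((2 * q : ℕ) : ℂ)).re := by
      intro z
      rw [← Complex.ofReal_natCast, Complex.re_mul_ofReal]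
    rw [e3, ← Complex.add_re]
    have e4 : ∀ z : ℂ, z = 0 → z.re = 0 := fun z hz => by rw [hz, Complex.zero_re]
    refine e4 _ ?_
    ring
  · rw [if_neg (not_lt.2 h.le), if_neg h.ne', mul_zero, Complex.zero_re, neg_zero]
    simp only [PP_gt i u v h]
    have : (fun _ : ZMod (2 * q) => (ip y ((0 : Matrix (Fin M) (Fin M) ℂ).mulVec x)).re) = fun _ => 0 := by
      funext s
      rw [Matrix.zero_mulVec, ip_zero_right, Complex.zero_re]
    rw [this]
    exact av_const _

/-- `∑ E' ⟨y, P x⟩ = -⟨y, H x⟩` (real parts) -/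
theorem PP_first (o : Om b M q) (x y : Fin M → ℂ) :
    ∑ i, ∑ u, ∑ v, av (fun s => (ip y ((PP i u v s o).mulVec x)).re) = -(ip y ((HH o).mulVec x)).re := by
  simp only [first_one]
  have h1 : ip y ((HH o).mulVec x) = ∑ i, ((Real.sqrt b)⁻¹ : ℂ) * ∑ u, ∑ v, (starRingEnd ℂ) (y u) * lay (o i) u v * x v := by
    unfold ip Matrix.mulVec dotProduct HH
    simp only [mul_sum, sum_mul]
    symm
    rw [sum_comm]
    refine sum_congr rfl fun u _ => ?_
    rw [sum_comm]
    refine sum_congr rfl fun v _ => sum_congr rfl fun i _ => ?_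
    ring
  rw [h1, Complex.re_sum, ← sum_neg_distrib]
  refine sum_congr rfl fun i _ => ?_
  rw [sum_pair (fun u v => (starRingEnd ℂ) (y u) * lay (o i) u v * x v), mul_sum, Complex.re_sum, ← sum_neg_distrib]
  refine sum_congr rfl fun u _ => ?_
  rw [mul_sum, Complex.re_sum, ← sum_neg_distrib]

/-! ## Second moments -/

theorem av_re_norm (f : ZMod (2 * q) → ℂ) : av (fun s => ‖f s‖ ^ 2) = (∑ s, ‖f s‖ ^ 2) / (2 * q : ℕ) := by
  unfold av
  rw [ZMod.card]

theorem nsq_comb (α β d : ℂ) : ‖α * d + β * (starRingEnd ℂ) d‖ ^ 2 =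
    (‖α‖ ^ 2 + ‖β‖ ^ 2) * ‖d‖ ^ 2 + 2 * (α * (starRingEnd ℂ) β * d ^ 2).re := by
  have hn : ∀ z : ℂ, ‖z‖ ^ 2 = z.re * z.re + z.im * z.im := fun z => by
    rw [← Complex.normSq_eq_norm_sq, Complex.normSq_apply]
  rw [hn, hn, hn, hn]
  simp only [Complex.add_re, Complex.add_im, Complex.mul_re, Complex.mul_im, Complex.conj_re, Complex.conj_im, sq]
  ring

theorem sum_dd_sq (o : Om b M q) (hq : 3 ≤ q) (i : Fin b) (u v : Fin M) :
    ∑ s, ddl o i u v s ^ 2 = ((2 * q : ℕ) : ℂ) * om (2 * q) (o i u v) ^ 2 := by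
  have e : ∀ s, ddl o i u v s ^ 2 = om (2 * q) (o i u v + s) ^ 2 + (-(2 * om (2 * q) (o i u v))) * om (2 * q) (o i u v + s) +
      om (2 * q) (o i u v) ^ 2 := by
    intro s
    unfold ddl
    ring
  rw [sum_congr rfl fun s _ => e s, sum_add_distrib, sum_add_distrib, ← mul_sum,
    sum_shift (fun s => om (2 * q) s ^ 2), sum_shift (fun s => om (2 * q) s), sum_om_sq (by omega), sum_om (by omega),
    sum_const, card_univ, ZMod.card, nsmul_eq_mul]
  ring

theorem sum_dd_nsq (o : Om b M q) (i : Fin b) (u v : Fin M) : ∑ s, ‖ddl o i u v s‖ ^ 2 = 2 * (2 * q : ℕ) := by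
  have e : ∀ s, ‖ddl o i u v s‖ ^ 2 = 2 - 2 * ((starRingEnd ℂ) (om (2 * q) (o i u v)) * om (2 * q) (o i u v + s)).re := by
    intro s
    have h1 := om_norm (o i u v)
    have h2 := om_norm (o i u v + s)
    unfold ddl
    have h3 : ∀ z w : ℂ, ‖z‖ = 1 → ‖w‖ = 1 → ‖z - w‖ ^ 2 = 2 - 2 * ((starRingEnd ℂ) w * z).re := by
      intro z w hz hw
      have hz' : z.re * z.re + z.im * z.im = 1 := by
        rw [← Complex.normSq_apply, Complex.normSq_eq_norm_sq, hz, one_pow]
      have hw' : w.re * w.re + w.im * w.im = 1 := by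
        rw [← Complex.normSq_apply, Complex.normSq_eq_norm_sq, hw, one_pow]
      rw [← Complex.normSq_eq_norm_sq, Complex.normSq_apply]
      simp only [Complex.sub_re, Complex.sub_im, Complex.mul_re, Complex.conj_re, Complex.conj_im]
      linarith
    exact h3 _ _ h2 h1
  rw [sum_congr rfl fun s _ => e s, sum_sub_distrib, ← mul_sum, ← Complex.re_sum, ← mul_sum,
    sum_shift (fun s => om (2 * q) s), sum_om (by have := two_q_pos (q := q); omega), mul_zero, Complex.zero_re, sum_const,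
    card_univ, ZMod.card, nsmul_eq_mul]
  ring

theorem sum_de_nsq (o : Om b M q) (i : Fin b) (u : Fin M) : ∑ s, ‖de o i u s‖ ^ 2 = 2 * (2 * q : ℕ) := by
  have h3 : ∀ m n : ℕ, ‖(-1 : ℂ) ^ m - (-1) ^ n‖ ^ 2 = 2 - 2 * (((-1 : ℂ) ^ m) * (-1) ^ n).re := by
    intro m n
    rcases neg_one_pow_eq_or ℂ m with h | h <;> rcases neg_one_pow_eq_or ℂ n with h' | h' <;> rw [h, h'] <;>
      norm_num
  have e : ∀ s, ‖de o i u s‖ ^ 2 = 2 - 2 * ((-1 : ℂ) ^ (o i u u + s).val * (-1) ^ (o i u u).val).re := by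
    intro s
    exact h3 _ _
  rw [sum_congr rfl fun s _ => e s, sum_sub_distrib, ← mul_sum, ← Complex.re_sum, ← sum_mul,
    sum_shift (fun s => (-1 : ℂ) ^ s.val), sum_sgn, zero_mul, Complex.zero_re, sum_const,
    card_univ, ZMod.card, nsmul_eq_mul]
  ring

/-- the second moment for one coordinate -/
theorem second_one (hq : 3 ≤ q) (o : Om b M q) (i : Fin b) (u v : Fin M) (x y : Fin M → ℂ) :
    av (fun s => ‖ip y ((PP i u v s o).mulVec x)‖ ^ 2) = (b : ℝ)⁻¹ *
      (if u < v then 2 * (‖y u‖ ^ 2 * ‖x v‖ ^ 2 + ‖y v‖ ^ 2 * ‖x u‖ ^ 2) +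
          2 * ((starRingEnd ℂ) (y u) * x v * (y v * (starRingEnd ℂ) (x u)) * om (2 * q) (o i u v) ^ 2).re
        else if u = v then 2 * (‖y u‖ ^ 2 * ‖x u‖ ^ 2) else 0) := by
  have hb : ‖((Real.sqrt b)⁻¹ : ℂ)‖ ^ 2 = (b : ℝ)⁻¹ := by
    rw [← Complex.ofReal_inv, Complex.norm_real, Real.norm_eq_abs, sq_abs, inv_pow, Real.sq_sqrt (Nat.cast_nonneg _)]
  rcases lt_trichotomy u v with h | h | h
  · rw [if_pos h, av_re_norm]
    simp only [ip_PP_lt i u v h, norm_mul, mul_pow, hb]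
    rw [← mul_sum, mul_div_assoc]
    congr 1
    have e : ∀ s, ‖(starRingEnd ℂ) (y u) * x v * ddl o i u v s + (starRingEnd ℂ) (y v) * x u * (starRingEnd ℂ) (ddl o i u v s)‖ ^ 2 =
        (‖y u‖ ^ 2 * ‖x v‖ ^ 2 + ‖y v‖ ^ 2 * ‖x u‖ ^ 2) * ‖ddl o i u v s‖ ^ 2 +
          2 * ((starRingEnd ℂ) (y u) * x v * (y v * (starRingEnd ℂ) (x u)) * ddl o i u v s ^ 2).re := by
      intro s
      rw [nsq_comb]
      simp only [norm_mul, mul_pow, RCLike.norm_conj, map_mul, Complex.conj_conj]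
    rw [sum_congr rfl fun s _ => e s, sum_add_distrib, ← mul_sum, ← mul_sum, sum_dd_nsq, ← Complex.re_sum, ← mul_sum,
      sum_dd_sq o hq, div_eq_iff (q2ne' (q := q))]
    have e3 : ∀ z : ℂ, z.re * ((2 * q : ℕ) : ℝ) = (z * ((2 * q : ℕ) : ℂ)).re := by
      intro z
      rw [← Complex.ofReal_natCast, Complex.re_mul_ofReal]
    have e4 : ∀ a c : ℂ, a = c → a.re = c.re := fun a c h => by rw [h]
    have e5 := e4 ((starRingEnd ℂ) (y u) * x v * (y v * (starRingEnd ℂ) (x u)) * (((2 * q : ℕ) : ℂ) * om (2 * q) (o i u v) ^ 2))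
      ((starRingEnd ℂ) (y u) * x v * (y v * (starRingEnd ℂ) (x u)) * om (2 * q) (o i u v) ^ 2 * ((2 * q : ℕ) : ℂ)) (by ring)
    rw [e5, ← e3]
    ring
  · subst h
    rw [if_neg (lt_irrefl u), if_pos rfl, av_re_norm]
    simp only [ip_PP_diag i u, norm_mul, mul_pow, hb, RCLike.norm_conj]
    rw [← mul_sum, mul_div_assoc]
    congr 1
    rw [← mul_sum, sum_de_nsq, div_eq_iff (q2ne' (q := q))]
    ring
  · rw [if_neg (not_lt.2 h.le), if_neg h.ne', mul_zero]
    simp only [PP_gt i u v h]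
    have : (fun _ : ZMod (2 * q) => ‖ip y ((0 : Matrix (Fin M) (Fin M) ℂ).mulVec x)‖ ^ 2) = fun _ => 0 := by
      funext s
      rw [Matrix.zero_mulVec, ip_zero_right, norm_zero]
      norm_num
    rw [this]
    exact av_const _

/-- the exact second moment of the change -/
theorem PP_second (hb : 1 ≤ b) (hq : 3 ≤ q) (o : Om b M q) (x y : Fin M → ℂ) :
    ∑ i, ∑ u, ∑ v, av (fun s => ‖ip y ((PP i u v s o).mulVec x)‖ ^ 2) = 2 * (nsq x * nsq y) +
      2 * (∑ u, ∑ v, if u < v then (starRingEnd ℂ) (y u) * x v * (y v * (starRingEnd ℂ) (x u)) * kap o u v else 0).re := by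
  have hb0 : (b : ℝ) ≠ 0 := by positivity
  simp only [second_one hq]
  have h1 : ∑ i : Fin b, ∑ u : Fin M, ∑ v : Fin M, (b : ℝ)⁻¹ *
      (if u < v then 2 * (‖y u‖ ^ 2 * ‖x v‖ ^ 2 + ‖y v‖ ^ 2 * ‖x u‖ ^ 2) +
          2 * ((starRingEnd ℂ) (y u) * x v * (y v * (starRingEnd ℂ) (x u)) * om (2 * q) (o i u v) ^ 2).re
        else if u = v then 2 * (‖y u‖ ^ 2 * ‖x u‖ ^ 2) else 0) =
      ∑ u : Fin M, ∑ v : Fin M, ((if u < v then 2 * (‖y u‖ ^ 2 * ‖x v‖ ^ 2) + 2 * (‖y v‖ ^ 2 * ‖x u‖ ^ 2)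
        else if u = v then 2 * (‖y u‖ ^ 2 * ‖x u‖ ^ 2) else 0) +
        2 * (if u < v then (starRingEnd ℂ) (y u) * x v * (y v * (starRingEnd ℂ) (x u)) * kap o u v else 0).re) := by
    rw [sum_comm]
    refine sum_congr rfl fun u _ => ?_
    rw [sum_comm]
    refine sum_congr rfl fun v _ => ?_
    rw [← mul_sum]
    rcases lt_trichotomy u v with h | h | h
    · simp only [if_pos h]
      rw [sum_add_distrib, sum_const, card_univ, Fintype.card_fin, nsmul_eq_mul, ← mul_sum, ← Complex.re_sum, ← mul_sum]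
      unfold kap
      have e : (starRingEnd ℂ) (y u) * x v * (y v * (starRingEnd ℂ) (x u)) * ((∑ i, om (2 * q) (o i u v) ^ 2) / (b : ℂ)) =
          (starRingEnd ℂ) (y u) * x v * (y v * (starRingEnd ℂ) (x u)) * (∑ i, om (2 * q) (o i u v) ^ 2) * (((b : ℝ)⁻¹ : ℝ) : ℂ) := by
        push_cast
        ring
      rw [e, Complex.re_mul_ofReal]
      field_simp
    · subst h
      simp only [if_neg (lt_irrefl u), if_true, Complex.zero_re, mul_zero, add_zero]
      rw [sum_const, card_univ, Fintype.card_fin, nsmul_eq_mul]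
      field_simp
    · simp only [if_neg (not_lt.2 h.le), if_neg h.ne', Complex.zero_re, mul_zero, add_zero, sum_const_zero]
  rw [h1]
  simp only [sum_add_distrib]
  congr 1
  · rw [← sum_pair (fun u v => 2 * (‖y u‖ ^ 2 * ‖x v‖ ^ 2))]
    unfold nsq
    rw [sum_mul_sum, mul_sum, sum_comm]
    refine sum_congr rfl fun u _ => ?_
    rw [mul_sum]
    refine sum_congr rfl fun v _ => ?_
    ring
  · rw [Complex.re_sum, mul_sum]
    refine sum_congr rfl fun u _ => ?_
    rw [Complex.re_sum, mul_sum]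

end

end ACpFrege
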