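import Pool.Agent.H12.AF.Res2

/-!
helper12 (project MP_28250c_AF): bounds for the moments of the change; norm of the change; `kap`.
-/

set_option autoImplicit false
set_option linter.unusedSectionVars false

namespace ACpFrege

open Finset

section
variable {b M q : ℕ} [NeZero q]

theorem kap_term (o : Om b M q) (x y : Fin M → ℂ) (k : ℝ) (hk : ∀ u v, u < v → ‖kap o u v‖ ≤ k) (hk0 : 0 ≤ k) :
    |2 * (∑ u, ∑ v, if u < v then (starRingEnd ℂ) (y u) * x v * (y v * (starRingEnd ℂ) (x u)) * kap o u v else 0).re| ≤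
      k * (nsq x * nsq y) := by
  have h1 : ‖∑ u, ∑ v, (if u < v then (starRingEnd ℂ) (y u) * x v * (y v * (starRingEnd ℂ) (x u)) * kap o u v else 0)‖ ≤
      ∑ u, ∑ v, if u < v then (‖y u‖ * ‖x u‖) * (‖y v‖ * ‖x v‖) * k else 0 := by
    refine (norm_sum_le _ _).trans (sum_le_sum fun u _ => (norm_sum_le _ _).trans (sum_le_sum fun v _ => ?_))
    by_cases h : u < v
    · rw [if_pos h, if_pos h]
      simp only [norm_mul, RCLike.norm_conj]
      have := hk u v h
      calc ‖y u‖ * ‖x v‖ * (‖y v‖ * ‖x u‖) * ‖kap o u v‖ ≤ ‖y u‖ * ‖x v‖ * (‖y v‖ * ‖x u‖) * k := by gcongr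
        _ = _ := by ring
    · rw [if_neg h, if_neg h, norm_zero]
  have h2 : 2 * (∑ u, ∑ v, if u < v then (‖y u‖ * ‖x u‖) * (‖y v‖ * ‖x v‖) * k else 0) ≤
      k * (∑ u, ‖y u‖ * ‖x u‖) ^ 2 := by
    have h3 : ∑ u : Fin M, ∑ v : Fin M, (‖y u‖ * ‖x u‖) * (‖y v‖ * ‖x v‖) * k =
        ∑ u, ∑ v, if u < v then (‖y u‖ * ‖x u‖) * (‖y v‖ * ‖x v‖) * k + (‖y v‖ * ‖x v‖) * (‖y u‖ * ‖x u‖) * k
          else if u = v then (‖y u‖ * ‖x u‖) * (‖y u‖ * ‖x u‖) * k else 0 :=
      sum_pair (fun u v => (‖y u‖ * ‖x u‖) * (‖y v‖ * ‖x v‖) * k)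
    have h4 : k * (∑ u, ‖y u‖ * ‖x u‖) ^ 2 = ∑ u : Fin M, ∑ v : Fin M, (‖y u‖ * ‖x u‖) * (‖y v‖ * ‖x v‖) * k := by
      rw [sq, sum_mul_sum, mul_sum]
      refine sum_congr rfl fun u _ => ?_
      rw [mul_sum]
      refine sum_congr rfl fun v _ => ?_
      ring
    rw [h4, h3, mul_sum]
    refine sum_le_sum fun u _ => ?_
    rw [mul_sum]
    refine sum_le_sum fun v _ => ?_
    by_cases h : u < v
    · rw [if_pos h, if_pos h]
      refine le_of_eq ?_
      ring
    · rw [if_neg h, if_neg h, mul_zero]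
      split_ifs
      · positivity
      · exact le_refl _
  have h3 : (∑ u, ‖y u‖ * ‖x u‖) ^ 2 ≤ nsq x * nsq y := by
    rw [mul_comm]
    exact sum_mul_sq_le_sq_mul_sq _ _ _
  rw [abs_mul, abs_two]
  have h5 := Complex.abs_re_le_norm (∑ u, ∑ v, (if u < v then (starRingEnd ℂ) (y u) * x v * (y v * (starRingEnd ℂ) (x u)) *
    kap o u v else 0))
  have h6 := mul_le_mul_of_nonneg_left h3 hk0
  linarith

theorem PP_second_ge (hb : 1 ≤ b) (hq : 3 ≤ q) (o : Om b M q) (x y : Fin M → ℂ) (k : ℝ)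
    (hk : ∀ u v, u < v → ‖kap o u v‖ ≤ k) (hk0 : 0 ≤ k) : (2 - k) * (nsq x * nsq y) ≤
    ∑ i, ∑ u, ∑ v, av (fun s => ‖ip y ((PP i u v s o).mulVec x)‖ ^ 2) := by
  rw [PP_second hb hq]
  have := (abs_le.1 (kap_term o x y k hk hk0)).1
  linarith

theorem PP_second_le (hb : 1 ≤ b) (hq : 3 ≤ q) (o : Om b M q) (x y : Fin M → ℂ) (k : ℝ)
    (hk : ∀ u v, u < v → ‖kap o u v‖ ≤ k) (hk0 : 0 ≤ k) :
    ∑ i, ∑ u, ∑ v, av (fun s => ‖ip y ((PP i u v s o).mulVec x)‖ ^ 2) ≤ (2 + k) * (nsq x * nsq y) := by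
  rw [PP_second hb hq]
  have := (abs_le.1 (kap_term o x y k hk hk0)).2
  linarith

theorem kap_le (hb : 1 ≤ b) (o : Om b M q) (u v : Fin M) : ‖kap o u v‖ ≤ 1 := by
  unfold kap
  rw [norm_div, Complex.norm_natCast, div_le_one (by positivity)]
  refine (norm_sum_le _ _).trans (le_of_eq ?_)
  simp only [norm_pow, om_norm, one_pow]
  rw [sum_const, card_univ, Fintype.card_fin, nsmul_eq_mul, mul_one]

/-- norm of the change -/
theorem PP_norm (hb : 1 ≤ b) (i : Fin b) (u v : Fin M) (s : ZMod (2 * q)) (o : Om b M q) (z : Fin M → ℂ) :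
    nsq ((PP i u v s o).mulVec z) ≤ (2 / Real.sqrt b) ^ 2 * nsq z := by
  have hb0 : (0 : ℝ) < b := by exact_mod_cast hb
  have hn : ‖((Real.sqrt b)⁻¹ : ℂ)‖ ^ 2 = (b : ℝ)⁻¹ := by
    rw [← Complex.ofReal_inv, Complex.norm_real, Real.norm_eq_abs, sq_abs, inv_pow, Real.sq_sqrt (Nat.cast_nonneg _)]
  have h2 : (2 / Real.sqrt b) ^ 2 = 4 * (b : ℝ)⁻¹ := by
    rw [div_pow, Real.sq_sqrt hb0.le]
    ring
  rw [h2]
  have hd : ∀ z w : ℂ, ‖z‖ = 1 → ‖w‖ = 1 → ‖z - w‖ ^ 2 ≤ 4 := by
    intro z w hz hw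
    have h := norm_sub_le z w
    rw [hz, hw] at h
    have h0 := norm_nonneg (z - w)
    nlinarith
  rcases lt_trichotomy u v with h | h | h
  · have hD : ‖ddl o i u v s‖ ^ 2 ≤ 4 := hd _ _ (om_norm _) (om_norm _)
    have e : ∀ x, ((PP i u v s o).mulVec z) x = ((Real.sqrt b)⁻¹ : ℂ) * ((if x = u then ddl o i u v s * z v else 0) +
        (if x = v then (starRingEnd ℂ) (ddl o i u v s) * z u else 0)) := by
      intro x
      have h3 := ip_PP_lt i u v h s o z (fun w => if w = x then 1 else 0)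
      have h4 : ip (fun w => if w = x then (1 : ℂ) else 0) ((PP i u v s o).mulVec z) = ((PP i u v s o).mulVec z) x := by
        unfold ip
        rw [sum_eq_single x]
        · simp
        · intro w _ hw
          simp [hw]
        · intro h
          exact absurd (mem_univ x) h
      rw [h4] at h3
      rw [h3]
      congr 2
      · by_cases hx : u = x
        · rw [if_pos hx, if_pos hx.symm, map_one, one_mul, mul_comm]
        · rw [if_neg hx, if_neg (Ne.symm hx), map_zero, zero_mul, zero_mul]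
      · by_cases hx : v = x
        · rw [if_pos hx, if_pos hx.symm, map_one, one_mul, mul_comm]
        · rw [if_neg hx, if_neg (Ne.symm hx), map_zero, zero_mul, zero_mul]
    have e2 : nsq ((PP i u v s o).mulVec z) = (b : ℝ)⁻¹ * (‖ddl o i u v s‖ ^ 2 * (‖z v‖ ^ 2 + ‖z u‖ ^ 2)) := by
      unfold nsq
      simp only [e, norm_mul, mul_pow, hn]
      rw [← mul_sum]
      congr 1
      have e3 : ∀ x : Fin M, ‖(if x = u then ddl o i u v s * z v else 0) +
          (if x = v then (starRingEnd ℂ) (ddl o i u v s) * z u else 0)‖ ^ 2 =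
          (if x = u then ‖ddl o i u v s‖ ^ 2 * ‖z v‖ ^ 2 else 0) + (if x = v then ‖ddl o i u v s‖ ^ 2 * ‖z u‖ ^ 2 else 0) := by
        intro x
        by_cases hx : x = u
        · subst hx
          rw [if_pos rfl, if_neg h.ne, if_pos rfl, if_neg h.ne, add_zero, add_zero, norm_mul, mul_pow]
        · rw [if_neg hx, if_neg hx, zero_add, zero_add]
          by_cases hx' : x = v
          · rw [if_pos hx', if_pos hx', norm_mul, mul_pow, RCLike.norm_conj]
          · rw [if_neg hx', if_neg hx', norm_zero]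
            norm_num
      rw [sum_congr rfl fun x _ => e3 x, sum_add_distrib, sum_ite_eq' univ u, sum_ite_eq' univ v, if_pos (mem_univ _),
        if_pos (mem_univ _)]
      ring
    have e4 : ‖z v‖ ^ 2 + ‖z u‖ ^ 2 ≤ nsq z := by
      unfold nsq
      have := sum_le_univ_sum_of_nonneg (s := ({v, u} : Finset (Fin M))) (f := fun x => ‖z x‖ ^ 2) (fun x => by positivity)
      rw [Finset.sum_pair h.ne'] at this
      exact this
    rw [e2]
    have h5 : 0 ≤ ‖z v‖ ^ 2 + ‖z u‖ ^ 2 := by positivity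
    calc (b : ℝ)⁻¹ * (‖ddl o i u v s‖ ^ 2 * (‖z v‖ ^ 2 + ‖z u‖ ^ 2)) ≤ (b : ℝ)⁻¹ * (4 * nsq z) := by
          refine mul_le_mul_of_nonneg_left ?_ (by positivity)
          exact mul_le_mul hD e4 h5 (by norm_num)
      _ = _ := by ring
  · subst h
    have hD : ‖de o i u s‖ ^ 2 ≤ 4 := hd _ _ (sgn_norm _) (sgn_norm _)
    have e : ∀ x, ((PP i u u s o).mulVec z) x = ((Real.sqrt b)⁻¹ : ℂ) * (if x = u then de o i u s * z u else 0) := by
      intro x
      have h3 := ip_PP_diag i u s o z (fun w => if w = x then 1 else 0)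
      have h4 : ip (fun w => if w = x then (1 : ℂ) else 0) ((PP i u u s o).mulVec z) = ((PP i u u s o).mulVec z) x := by
        unfold ip
        rw [sum_eq_single x]
        · simp
        · intro w _ hw
          simp [hw]
        · intro h
          exact absurd (mem_univ x) h
      rw [h4] at h3
      rw [h3]
      congr 1
      by_cases hx : u = x
      · rw [if_pos hx, if_pos hx.symm, map_one, one_mul, mul_comm]
      · rw [if_neg hx, if_neg (Ne.symm hx), map_zero, zero_mul, zero_mul]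
    have e2 : nsq ((PP i u u s o).mulVec z) = (b : ℝ)⁻¹ * (‖de o i u s‖ ^ 2 * ‖z u‖ ^ 2) := by
      unfold nsq
      simp only [e, norm_mul, mul_pow, hn]
      rw [← mul_sum]
      congr 1
      rw [sum_eq_single u]
      · rw [if_pos rfl, norm_mul, mul_pow]
      · intro x _ hx
        rw [if_neg hx, norm_zero]
        norm_num
      · intro h
        exact absurd (mem_univ u) h
    rw [e2]
    have h5 := norm_apply_sq_le z u
    calc (b : ℝ)⁻¹ * (‖de o i u s‖ ^ 2 * ‖z u‖ ^ 2) ≤ (b : ℝ)⁻¹ * (4 * nsq z) := by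
          refine mul_le_mul_of_nonneg_left ?_ (by positivity)
          exact mul_le_mul hD h5 (by positivity) (by norm_num)
      _ = _ := by ring
  · rw [PP_gt i u v h, Matrix.zero_mulVec, nsq_zero]
    have := nsq_nonneg z
    positivity

end

end ACpFrege
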