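import Pool.Agent.H12.AF.C2

/-!
helper12 (project MP_28250c_AF): exponential moments of a column of the random matrix, conditionally on the rest.
-/

set_option autoImplicit false
set_option linter.unusedSectionVars false

namespace ACpFrege

open Finset

theorem cosh_interp (x r t : ℝ) (ht : 0 ≤ t) (ht1 : t ≤ 1) (hx : |x| = t * r) (hr : 0 ≤ r) :
    Real.cosh x ≤ (1 - t ^ 2) + t ^ 2 * Real.cosh r := by
  have h1 := Real.hasSum_cosh x
  have h2 : HasSum (fun n : ℕ => (if n = 0 then (1 - t ^ 2) else 0) + t ^ 2 * (r ^ (2 * n) / (2 * n).factorial))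
      ((1 - t ^ 2) + t ^ 2 * Real.cosh r) :=
    (hasSum_ite_eq 0 (1 - t ^ 2)).add ((Real.hasSum_cosh r).mul_left (t ^ 2))
  refine hasSum_le (fun n => ?_) h1 h2
  rcases Nat.eq_zero_or_pos n with hn | hn
  · subst hn
    simp
  · rw [if_neg hn.ne', zero_add, ← mul_div_assoc]
    refine div_le_div_of_nonneg_right ?_ (Nat.cast_nonneg _)
    have e : x ^ (2 * n) = (t * r) ^ (2 * n) := by
      rw [← hx, pow_mul, pow_mul, sq_abs]
    rw [e, mul_pow]
    refine mul_le_mul_of_nonneg_right ?_ (by positivity)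
    exact pow_le_pow_of_le_one ht ht1 (by omega)

section
variable {q : ℕ} [NeZero q]

theorem om_half (s : ZMod (2 * q)) : om (2 * q) (s + (q : ZMod (2 * q))) = -om (2 * q) s := by
  rw [om_add, om_natCast, ← Complex.exp_nat_mul]
  have hq : (q : ℂ) ≠ 0 := by exact_mod_cast NeZero.ne q
  have e : (q : ℂ) * (2 * Real.pi * Complex.I / ((2 * q : ℕ) : ℂ)) = Real.pi * Complex.I := by
    push_cast
    field_simp
  rw [e, Complex.exp_pi_mul_I]
  ring

/-- exponential moment of one root of unity -/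
theorem mgf_one (hq : 2 ≤ q) (z : ℂ) :
    av (fun s : ZMod (2 * q) => Real.exp (z * om (2 * q) s).re) ≤ Real.exp (‖z‖ ^ 2 / 4) := by
  have h1 : av (fun s : ZMod (2 * q) => Real.exp (z * om (2 * q) s).re) =
      av (fun s : ZMod (2 * q) => Real.cosh (z * om (2 * q) s).re) := by
    have h2 : av (fun s : ZMod (2 * q) => Real.exp (-(z * om (2 * q) s).re)) =
        av (fun s : ZMod (2 * q) => Real.exp (z * om (2 * q) s).re) := by
      rw [← av_equiv (Equiv.addRight (q : ZMod (2 * q)))]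
      refine congrArg av (funext fun s => ?_)
      rw [Equiv.coe_addRight, om_half, mul_neg, Complex.neg_re, neg_neg]
    have h3 : (fun s : ZMod (2 * q) => Real.cosh (z * om (2 * q) s).re) =
        fun s => (1 / 2) * (Real.exp (z * om (2 * q) s).re + Real.exp (-(z * om (2 * q) s).re)) := by
      funext s
      rw [Real.cosh_eq]
      ring
    rw [h3, av_mul, av_add, h2]
    ring
  rw [h1]
  by_cases hz : z = 0
  · subst hz
    simp only [zero_mul, Complex.zero_re, Real.cosh_zero, norm_zero]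
    rw [av_const]
    norm_num
  have hr : 0 < ‖z‖ := norm_pos_iff.2 hz
  have h2 : av (fun s : ZMod (2 * q) => (z * om (2 * q) s).re ^ 2) = ‖z‖ ^ 2 / 2 := by
    have e : ∀ s : ZMod (2 * q), (z * om (2 * q) s).re ^ 2 = ‖z‖ ^ 2 / 2 + 1 / 2 * (z ^ 2 * om (2 * q) s ^ 2).re := by
      intro s
      have h3 : ∀ w : ℂ, w.re ^ 2 = ‖w‖ ^ 2 / 2 + 1 / 2 * (w ^ 2).re := by
        intro w
        rw [← Complex.normSq_eq_norm_sq, Complex.normSq_apply, sq w, Complex.mul_re]
        ring
      rw [h3, norm_mul, om_norm, mul_one, mul_pow]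
    have e2 : (fun s : ZMod (2 * q) => (z * om (2 * q) s).re ^ 2) =
        fun s => ‖z‖ ^ 2 / 2 + 1 / 2 * (z ^ 2 * om (2 * q) s ^ 2).re := funext e
    rw [e2, av_add, av_const, av_mul, av_re, ← mul_sum, sum_om_pow (by norm_num) (by omega), mul_zero, Complex.zero_re]
    ring
  have h3 : ∀ s : ZMod (2 * q), Real.cosh (z * om (2 * q) s).re ≤
      1 + (Real.cosh ‖z‖ - 1) / ‖z‖ ^ 2 * (z * om (2 * q) s).re ^ 2 := by
    intro s
    have hx : |(z * om (2 * q) s).re| ≤ ‖z‖ := by
      refine (Complex.abs_re_le_norm _).trans (le_of_eq ?_)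
      rw [norm_mul, om_norm, mul_one]
    have h4 := cosh_interp (z * om (2 * q) s).re ‖z‖ (|(z * om (2 * q) s).re| / ‖z‖) (by positivity)
      ((div_le_one hr).2 hx) (by field_simp) hr.le
    refine h4.trans (le_of_eq ?_)
    rw [div_pow, sq_abs]
    ring
  refine (av_mono h3).trans ?_
  rw [av_add, av_const, av_mul, h2]
  have h5 : 1 + (Real.cosh ‖z‖ - 1) / ‖z‖ ^ 2 * (‖z‖ ^ 2 / 2) = Real.cosh (‖z‖ / 2) ^ 2 := by
    have h6 : Real.cosh ‖z‖ = Real.cosh (‖z‖ / 2) ^ 2 + Real.sinh (‖z‖ / 2) ^ 2 := by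
      rw [← Real.cosh_two_mul]
      congr 1
      ring
    have h7 := Real.cosh_sq (‖z‖ / 2)
    field_simp
    linarith
  rw [h5]
  have h6 := Real.cosh_le_exp_half_sq (‖z‖ / 2)
  have h7 : 0 ≤ Real.cosh (‖z‖ / 2) := (Real.cosh_pos _).le
  calc Real.cosh (‖z‖ / 2) ^ 2 ≤ (Real.exp ((‖z‖ / 2) ^ 2 / 2)) ^ 2 := pow_le_pow_left₀ h7 h6 2
    _ = Real.exp (‖z‖ ^ 2 / 4) := by
        rw [← Real.exp_nat_mul]
        congr 1
        push_cast
        ring

theorem av_om_shift (F : ℂ → ℝ) (a : ZMod (2 * q)) : av (fun s => F (om (2 * q) (a + s))) = av (fun s => F (om (2 * q) s)) :=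
  av_equiv (Equiv.addLeft a) (fun s => F (om (2 * q) s))

variable {b M : ℕ}

/-- the coordinate of the entry `(v,u)` -/
def cr (v u : Fin M) : Fin M × Fin M := if v < u then (v, u) else (u, v)

theorem lay_cr (hq : 2 ≤ q) (o : Om b M q) (i : Fin b) (v u : Fin M) (hvu : v ≠ u) (z : ℂ) :
    av (fun s => Real.exp (z * lay (shf i (cr v u).1 (cr v u).2 s o i) v u).re) ≤ Real.exp (‖z‖ ^ 2 / 4) := by
  unfold cr lay
  by_cases h : v < u
  · simp only [if_pos h, shf_self]
    rw [av_om_shift (fun w => Real.exp (z * w).re)]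
    exact mgf_one hq z
  · have h' : u < v := lt_of_le_of_ne (not_lt.1 h) (Ne.symm hvu)
    simp only [if_neg h, if_pos h', shf_self]
    have e : ∀ s : ZMod (2 * q), (z * (starRingEnd ℂ) (om (2 * q) (o i u v + s))).re =
        ((starRingEnd ℂ) z * om (2 * q) (o i u v + s)).re := by
      intro s
      simp [Complex.mul_re]
    simp only [e]
    rw [av_om_shift (fun w => Real.exp ((starRingEnd ℂ) z * w).re)]
    have := mgf_one hq ((starRingEnd ℂ) z)
    rwa [RCLike.norm_conj] at this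

theorem lay_cr_ne (o : Om b M q) (i j : Fin b) (v w u : Fin M) (s : ZMod (2 * q)) (hvu : v ≠ u) (hwu : w ≠ u)
    (h : (i, v) ≠ (j, w)) : lay (shf i (cr v u).1 (cr v u).2 s o j) w u = lay (o j) w u := by
  have hne : ∀ x y : Fin M, ((x = w ∧ y = u) ∨ (x = u ∧ y = w)) →
      ¬ (j = i ∧ x = (cr v u).1 ∧ y = (cr v u).2) := by
    rintro x y hxy ⟨h1, h2, h3⟩
    apply h
    subst h1
    have : v = w := by
      unfold cr at h2 h3
      rcases hxy with ⟨rfl, rfl⟩ | ⟨rfl, rfl⟩
      · by_cases hv : v < y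
        · rw [if_pos hv] at h2
          exact h2.symm
        · rw [if_neg hv] at h2
          exact absurd h2 hwu
      · by_cases hv : v < x
        · rw [if_pos hv] at h2
          exact absurd h2.symm hvu
        · rw [if_neg hv] at h3
          exact h3.symm
    rw [this]
  unfold lay
  rcases lt_trichotomy w u with h1 | h1 | h1
  · rw [if_pos h1, if_pos h1, shf_ne i _ _ s o j w u (hne w u (Or.inl ⟨rfl, rfl⟩))]
  · exact absurd h1 hwu
  · rw [if_neg (not_lt.2 h1.le), if_pos h1, if_neg (not_lt.2 h1.le), if_pos h1,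
      shf_ne i _ _ s o j u w (hne u w (Or.inr ⟨rfl, rfl⟩))]

theorem cr_row (v u : Fin M) : (cr v u).1 = u ∨ (cr v u).2 = u := by
  unfold cr
  by_cases h : v < u
  · rw [if_pos h]
    exact Or.inr rfl
  · rw [if_neg h]
    exact Or.inl rfl

/-- induction over the coordinates -/
theorem row_ind (hq : 2 ≤ q) (u : Fin M) (z : Om b M q → Fin M → ℂ) (hz : RInv u z) (S : Finset (Fin b × Fin M))
    (hS : ∀ p ∈ S, p.2 ≠ u) : ∀ g : Om b M q → ℝ, (∀ o, 0 ≤ g o) → RInv u g →
    av (fun o => g o * Real.exp (∑ p ∈ S, (z o p.2 * lay (o p.1) p.2 u).re)) ≤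
      av (fun o => g o * Real.exp (∑ p ∈ S, ‖z o p.2‖ ^ 2 / 4)) := by
  induction S using Finset.induction_on with
  | empty =>
    intro g _ _
    simp
  | insert p S hp ih =>
    intro g hg hgI
    have hpu : p.2 ≠ u := hS p (mem_insert_self _ _)
    have hSu : ∀ r ∈ S, r.2 ≠ u := fun r hr => hS r (mem_insert_of_mem hr)
    have h1 : av (fun o => g o * Real.exp (∑ p ∈ insert p S, (z o p.2 * lay (o p.1) p.2 u).re)) ≤
        av (fun o => (g o * Real.exp (‖z o p.2‖ ^ 2 / 4)) * Real.exp (∑ p ∈ S, (z o p.2 * lay (o p.1) p.2 u).re)) := by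
      rw [av_resample p.1 (cr p.2 u).1 (cr p.2 u).2]
      refine av_mono fun o => ?_
      have e : ∀ s, g (shf p.1 (cr p.2 u).1 (cr p.2 u).2 s o) *
          Real.exp (∑ r ∈ insert p S, (z (shf p.1 (cr p.2 u).1 (cr p.2 u).2 s o) r.2 *
            lay (shf p.1 (cr p.2 u).1 (cr p.2 u).2 s o r.1) r.2 u).re) =
          (g o * Real.exp (∑ r ∈ S, (z o r.2 * lay (o r.1) r.2 u).re)) *
            Real.exp (z o p.2 * lay (shf p.1 (cr p.2 u).1 (cr p.2 u).2 s o p.1) p.2 u).re := by
        intro s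
        rw [hgI _ _ _ _ _ (cr_row p.2 u), hz _ _ _ _ _ (cr_row p.2 u), sum_insert hp, Real.exp_add]
        have e2 : ∑ r ∈ S, (z o r.2 * lay (shf p.1 (cr p.2 u).1 (cr p.2 u).2 s o r.1) r.2 u).re =
            ∑ r ∈ S, (z o r.2 * lay (o r.1) r.2 u).re := by
          refine sum_congr rfl fun r hr => ?_
          rw [lay_cr_ne o p.1 r.1 p.2 r.2 u s hpu (hSu r hr)]
          rintro h
          exact hp (by
            have : p = r := Prod.ext (Prod.ext_iff.1 h).1 (Prod.ext_iff.1 h).2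
            rw [this]
            exact hr)
        rw [e2]
        ring
      rw [congrArg av (funext e), av_mul]
      have h2 := lay_cr hq o p.1 p.2 u hpu (z o p.2)
      have h3 : 0 ≤ g o * Real.exp (∑ r ∈ S, (z o r.2 * lay (o r.1) r.2 u).re) := mul_nonneg (hg o) (Real.exp_pos _).le
      refine (mul_le_mul_of_nonneg_left h2 h3).trans (le_of_eq ?_)
      ring
    refine h1.trans ((ih hSu (fun o => g o * Real.exp (‖z o p.2‖ ^ 2 / 4)) (fun o => mul_nonneg (hg o) (Real.exp_pos _).le)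
      ?_).trans (le_of_eq ?_))
    · intro i u' v' s o h
      simp only [hgI i u' v' s o h, hz i u' v' s o h]
    · refine congrArg av (funext fun o => ?_)
      rw [sum_insert hp, Real.exp_add]
      ring

theorem mgf_row (hb : 1 ≤ b) (hq : 2 ≤ q) (u : Fin M) (g : Om b M q → ℝ) (c : Om b M q → Fin M → ℂ)
    (hg : ∀ o, 0 ≤ g o) (hgI : RInv u g) (hc : RInv u c) :
    av (fun o => g o * Real.exp (ip (c o) (col (HH o) u)).re) ≤ av (fun o => g o * Real.exp (nsq (c o) / 4)) := by
  have hb0 : (0 : ℝ) < b := by exact_mod_cast hb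
  have h := row_ind hq u (fun o v => ((Real.sqrt b)⁻¹ : ℂ) * (starRingEnd ℂ) (c o v)) (fun i u' v' s o h => by
    funext v
    simp only [hc i u' v' s o h]) (univ.filter fun p : Fin b × Fin M => p.2 ≠ u) (fun p hp => (mem_filter.1 hp).2) g hg hgI
  have e1 : ∀ o : Om b M q, ∑ p ∈ univ.filter (fun p : Fin b × Fin M => p.2 ≠ u),
      (((Real.sqrt b)⁻¹ : ℂ) * (starRingEnd ℂ) (c o p.2) * lay (o p.1) p.2 u).re = (ip (c o) (col (HH o) u)).re := by
    intro o
    rw [sum_filter, Fintype.sum_prod_type, sum_comm]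
    unfold ip
    rw [Complex.re_sum]
    refine sum_congr rfl fun v _ => ?_
    unfold col HH
    by_cases hv : v = u
    · simp [hv]
    · simp only [hv, not_false_eq_true, if_true, ne_eq, if_false]
      rw [← Complex.re_sum, ← mul_sum]
      congr 1
      ring
  have e2 : ∀ o : Om b M q, ∑ p ∈ univ.filter (fun p : Fin b × Fin M => p.2 ≠ u),
      ‖((Real.sqrt b)⁻¹ : ℂ) * (starRingEnd ℂ) (c o p.2)‖ ^ 2 / 4 ≤ nsq (c o) / 4 := by
    intro o
    have hn : ‖((Real.sqrt b)⁻¹ : ℂ)‖ ^ 2 = (b : ℝ)⁻¹ := by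
      rw [← Complex.ofReal_inv, Complex.norm_real, Real.norm_eq_abs, sq_abs, inv_pow, Real.sq_sqrt (Nat.cast_nonneg _)]
    refine (sum_le_sum_of_subset_of_nonneg (filter_subset _ _) fun p _ _ => by positivity).trans (le_of_eq ?_)
    simp only [norm_mul, mul_pow, hn, RCLike.norm_conj]
    rw [Fintype.sum_prod_type]
    simp only [sum_const, card_univ, Fintype.card_fin, nsmul_eq_mul]
    unfold nsq
    rw [sum_div, mul_sum]
    refine sum_congr rfl fun v _ => ?_
    field_simp
  simp only [e1] at h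
  refine h.trans (av_mono fun o => mul_le_mul_of_nonneg_left (Real.exp_le_exp.2 (e2 o)) (hg o))

theorem rowS : RowS := fun _ _ _ _ hb hq u g c hg hgI hc => mgf_row hb (by omega) u g c hg hgI hc

end

end ACpFrege
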